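import Mathlib
import Pool.Agent.TH407.MV.Defs

/-!
# Fixed time `L⁴` bound for the cut-off function of the angle (job 2707)
-/

set_option autoImplicit false

namespace Pool.Agent.TH541.MV

open Pool.Agent.TH407 Pool.Agent.TH407.MV
open MeasureTheory Set Complex
open scoped ENNReal NNReal Real ComplexConjugate

theorem eta_meas : Measurable MV.eta := by
  unfold MV.eta
  have h := Real.smoothTransition.continuous
  exact ((h.comp (by fun_prop)).mul (h.comp (by fun_prop))).measurable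

theorem ph_cont (ε : ℝ) : Continuous (ph ε) := by
  unfold ph
  refine Continuous.div (by fun_prop) (by fun_prop) fun y => ?_
  have := Real.sqrt_nonneg (1 + ε ^ 2 * y ^ 2)
  linarith

theorem KG_meas (ε t : ℝ) : Measurable (KG ε t) := by
  have h : StronglyMeasurable (Function.uncurry fun (w r : ℝ) =>
      ((r * MV.eta (r ^ 2) / (1 + ε ^ 2 * r ^ 2) ^ 2 : ℝ) : ℂ) *
    cexp (-(I * ((r * w / √(1 + ε ^ 2 * r ^ 2) +
      r ^ 2 / (√(1 + ε ^ 2 * r ^ 2) * (√(1 + ε ^ 2 * r ^ 2) + 1)) * t : ℝ) : ℂ)))) := by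
    refine Measurable.stronglyMeasurable ?_
    have he := eta_meas
    unfold Function.uncurry
    fun_prop
  exact (h.integral_prod_right (ν := volume.restrict (Ioi (0 : ℝ)))).measurable

theorem lint_scale {t : ℝ} (ht : 0 < t) (F : ℝ × ℝ → ℝ≥0∞) :
    ∫⁻ X, F X = ENNReal.ofReal (t ^ 2) * ∫⁻ y : ℝ × ℝ, F (-(t * y.1), -(t * y.2)) := by
  have hne : (-t : ℝ) ≠ 0 := by linarith
  have h1 := Measure.map_addHaar_smul (volume : Measure (ℝ × ℝ)) hne
  have h2 : ∫⁻ X, F X ∂(Measure.map (fun y : ℝ × ℝ => (-t) • y) volume) =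
      ∫⁻ y : ℝ × ℝ, F ((-t) • y) :=
    (measurableEmbedding_const_smul₀ hne).lintegral_map F
  rw [h1, lintegral_smul_measure] at h2
  have h3 : ∀ y : ℝ × ℝ, (-t) • y = (-(t * y.1), -(t * y.2)) := by
    intro y
    ext
    · show -t * y.1 = -(t * y.1)
      ring
    · show -t * y.2 = -(t * y.2)
      ring
  simp only [h3] at h2
  rw [← h2, smul_eq_mul, ← mul_assoc, ← ENNReal.ofReal_mul (by positivity)]
  have h4 : Module.finrank ℝ (ℝ × ℝ) = 2 := by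
    rw [Module.finrank_prod, Module.finrank_self]
  rw [h4]
  have h5 : t ^ 2 * |((-t) ^ 2)⁻¹| = 1 := by
    rw [abs_of_nonneg (by positivity), neg_sq, mul_inv_cancel₀ (by positivity)]
  rw [h5, ENNReal.ofReal_one, one_mul]

theorem enorm_add_pow_four (a b : ℂ) : ‖a + b‖ₑ ^ 4 ≤ 8 * (‖a‖ₑ ^ 4 + ‖b‖ₑ ^ 4) := by
  have h1 : ‖a + b‖ₑ ^ 4 ≤ (‖a‖ₑ + ‖b‖ₑ) ^ 4 := by
    gcongr
    exact enorm_add_le a b
  refine h1.trans ?_
  have h2 := ENNReal.rpow_add_le_mul_rpow_add_rpow ‖a‖ₑ ‖b‖ₑ (p := 4) (by norm_num)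
  have h3 : ((2 : ℝ≥0∞) ^ ((4 : ℝ) - 1)) = 8 := by
    have : (4 : ℝ) - 1 = ((3 : ℕ) : ℝ) := by norm_num
    rw [this, ENNReal.rpow_natCast]
    norm_num
  rw [h3] at h2
  have h4 : ∀ x : ℝ≥0∞, x ^ (4 : ℝ) = x ^ 4 := by
    intro x
    have : (4 : ℝ) = ((4 : ℕ) : ℝ) := by norm_num
    rw [this, ENNReal.rpow_natCast]
  rwa [h4, h4, h4] at h2

theorem log_bound {δ t : ℝ} (hδ : 0 < δ) (hδ' : δ ≤ 1 / 2) (ht : 1 ≤ t) :
    (1 + Real.log t) ^ 2 / t ^ 2 ≤ 4 * (1 + 2 / δ) ^ 2 * (1 + t) ^ (-2 + δ) := by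
  have ht0 : 0 < t := by linarith
  have h0 : 0 ≤ Real.log t := Real.log_nonneg ht
  have h1 : Real.log t ≤ t ^ (δ / 2) / (δ / 2) := Real.log_le_rpow_div ht0.le (by positivity)
  have h2 : 1 ≤ t ^ (δ / 2) := Real.one_le_rpow ht (by positivity)
  have h3 : 1 + Real.log t ≤ (1 + 2 / δ) * t ^ (δ / 2) := by
    have e : t ^ (δ / 2) / (δ / 2) = 2 / δ * t ^ (δ / 2) := by
      field_simp
    rw [e] at h1
    linarith
  have e1 : (t ^ (δ / 2)) ^ 2 = t ^ δ := by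
    rw [← Real.rpow_natCast, ← Real.rpow_mul ht0.le]
    congr 1
    push_cast
    ring
  have h4 : (1 + Real.log t) ^ 2 ≤ (1 + 2 / δ) ^ 2 * t ^ δ := by
    rw [← e1, ← mul_pow]
    exact pow_le_pow_left₀ (by linarith) h3 2
  have h5 : t ^ δ / t ^ 2 ≤ 4 * (1 + t) ^ (-2 + δ) := by
    have h6 : (1 + t) ^ (2 - δ) ≤ 4 * t ^ (2 - δ) := by
      calc (1 + t) ^ (2 - δ) ≤ (2 * t) ^ (2 - δ) :=
            Real.rpow_le_rpow (by linarith) (by linarith) (by linarith)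
        _ = 2 ^ (2 - δ) * t ^ (2 - δ) := Real.mul_rpow (by norm_num) ht0.le
        _ ≤ 4 * t ^ (2 - δ) := by
            refine mul_le_mul_of_nonneg_right ?_ (by positivity)
            calc (2 : ℝ) ^ (2 - δ) ≤ 2 ^ (2 : ℝ) :=
                  Real.rpow_le_rpow_of_exponent_le (by norm_num) (by linarith)
              _ = 4 := by
                  have : (2 : ℝ) = ((2 : ℕ) : ℝ) := by norm_num
                  rw [this, Real.rpow_natCast]
                  norm_num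
    have e2 : (1 + t) ^ (-2 + δ) = ((1 + t) ^ (2 - δ))⁻¹ := by
      rw [← Real.rpow_neg (by linarith)]
      congr 1
      ring
    have e3 : t ^ δ / t ^ 2 = (t ^ (2 - δ))⁻¹ := by
      rw [← Real.rpow_neg ht0.le, neg_sub, Real.rpow_sub ht0]
      congr 1
      rw [← Real.rpow_natCast]
      norm_num
    rw [e2, e3, ← div_eq_mul_inv, le_div_iff₀ (by positivity), inv_mul_le_iff₀ (by positivity)]
    linarith
  calc (1 + Real.log t) ^ 2 / t ^ 2 ≤ (1 + 2 / δ) ^ 2 * t ^ δ / t ^ 2 := by gcongr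
    _ = (1 + 2 / δ) ^ 2 * (t ^ δ / t ^ 2) := by ring
    _ ≤ (1 + 2 / δ) ^ 2 * (4 * (1 + t) ^ (-2 + δ)) := by gcongr
    _ = 4 * (1 + 2 / δ) ^ 2 * (1 + t) ^ (-2 + δ) := by ring

theorem dt_scale (t : ℝ) (y : ℝ × ℝ) (θ : ℝ) : dt (-(t * y.1), -(t * y.2)) θ = -(t * dt y θ) := by
  unfold dt
  ring

theorem dt_cont : Continuous (Function.uncurry dt) := by
  unfold dt Function.uncurry
  fun_prop

theorem int_bdd {F : ℝ → ℂ} (hF : Measurable F) {M : ℝ} (hM : ∀ θ, ‖F θ‖ ≤ M) :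
    Integrable F (volume.restrict (Ioo (-π) π)) := by
  refine Measure.integrableOn_of_bounded (M := M) ?_ hF.aestronglyMeasurable ?_
  · rw [Real.volume_Ioo]
    exact ENNReal.ofReal_ne_top
  · exact Filter.Eventually.of_forall hM

theorem real_bound {g : ℝ → ℂ} {B : ℝ≥0} (hB : ∀ θ, ‖g θ‖ₑ ≤ B) (θ : ℝ) : ‖g θ‖ ≤ B := by
  have h := hB θ
  rw [enorm_le_coe] at h
  exact h

/-- the decomposition of the extension -/
theorem EP_dec (h10 : Repr) {ε t Cs : ℝ} (hε : 0 ≤ ε) {A R : ℝ → ℂ}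
    (hAc : Continuous A) (hA1 : ∀ y, ‖A y‖ ≤ 1) (hR : Measurable R)
    (hRb : ∀ y, ‖R y‖ ≤ 1 / (1 + |y|) ^ 2)
    (hdec : ∀ y, KG ε t (-(t * y)) = ((Cs * t ^ (-(1 / 2) : ℝ) : ℝ) : ℂ) *
        (cexp (I * ((t * ph ε y : ℝ) : ℂ)) * A y) + ((Cs / t ^ 2 : ℝ) : ℂ) * R y)
    {g : ℝ → ℂ} {B : ℝ≥0} (hg : Measurable g) (hB : ∀ θ, ‖g θ‖ₑ ≤ B) (y : ℝ × ℝ) :
    EP ε (bgp ε g) (-(t * y.1), -(t * y.2)) t =
      ((Cs * t ^ (-(1 / 2) : ℝ) : ℝ) : ℂ) * (∫ θ in Ioo (-π) π,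
        cexp (I * ((t * ph ε (dt y θ) : ℝ) : ℂ)) * (A (dt y θ) * g θ)) +
      ((Cs / t ^ 2 : ℝ) : ℂ) * ∫ θ in Ioo (-π) π, R (dt y θ) * g θ := by
  have hdy : Continuous (dt y) := by
    unfold dt
    fun_prop
  have hph := ph_cont ε
  rw [h10 ε g _ t hε hg ⟨B, real_bound hB⟩]
  rw [← integral_const_mul, ← integral_const_mul, ← integral_add]
  · refine integral_congr_ae (Filter.Eventually.of_forall fun θ => ?_)
    show KG ε t (dt (-(t * y.1), -(t * y.2)) θ) * g θ = _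
    rw [dt_scale, hdec]
    ring
  · refine (int_bdd (M := B) (Measurable.mul ?_ (Measurable.mul ?_ hg)) fun θ => ?_).const_mul _
    · exact (Complex.continuous_exp.comp (continuous_const.mul
        (Complex.continuous_ofReal.comp (continuous_const.mul (hph.comp hdy))))).measurable
    · exact (hAc.comp hdy).measurable
    · show ‖cexp (I * ((t * ph ε (dt y θ) : ℝ) : ℂ)) * (A (dt y θ) * g θ)‖ ≤ B
      rw [norm_mul, norm_mul]
      have e : ‖cexp (I * ((t * ph ε (dt y θ) : ℝ) : ℂ))‖ = 1 := by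
        rw [mul_comm I]
        exact Complex.norm_exp_ofReal_mul_I _
      rw [e, one_mul]
      calc ‖A (dt y θ)‖ * ‖g θ‖ ≤ 1 * B := by
            gcongr
            · exact hA1 _
            · exact real_bound hB θ
        _ = B := one_mul _
  · refine (int_bdd (M := B) (Measurable.mul (hR.comp hdy.measurable) hg) fun θ => ?_).const_mul _
    show ‖R (dt y θ) * g θ‖ ≤ B
    rw [norm_mul]
    calc ‖R (dt y θ)‖ * ‖g θ‖ ≤ 1 * B := by
          gcongr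
          · refine (hRb _).trans ?_
            rw [div_le_one (by positivity)]
            have := abs_nonneg (dt y θ)
            nlinarith
          · exact real_bound hB θ
      _ = B := one_mul _

theorem enorm_ofReal_pow {x : ℝ} (hx : 0 ≤ x) : ‖(x : ℂ)‖ₑ ^ 4 = ENNReal.ofReal (x ^ 4) := by
  rw [← ofReal_norm, Complex.norm_real, Real.norm_eq_abs, abs_of_nonneg hx,
    ENNReal.ofReal_pow hx]

/-- times `t ≥ 1` -/
theorem pos_case (h7 : MainL4) (h8 : Stat) (h9 : TailL4) (h10 : Repr) {A0 δ : ℝ} (hA0 : 0 < A0)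
    (hδ : 0 < δ) (hδ' : δ ≤ 1 / 2) : ∃ C : ℝ≥0, ∀ ε : ℝ, 0 ≤ ε → ε ≤ A0 →
    ∀ (g : ℝ → ℂ) (B : ℝ≥0), Measurable g → (∀ θ, ‖g θ‖ₑ ≤ B) → ∀ t : ℝ, 1 ≤ t →
    ∫⁻ X : ℝ × ℝ, ‖EP ε (bgp ε g) X t‖ₑ ^ 4 ≤
      C * ENNReal.ofReal ((1 + t) ^ (-2 + δ)) * B ^ 2 * ∫⁻ θ in Ioo (-π) π, ‖g θ‖ₑ ^ 2 := by
  obtain ⟨Y1, Y2, Cs, hY1, hCs, hS⟩ := h8 A0 hA0
  obtain ⟨Cm, hM⟩ := h7 Y1 Y2 A0 hY1
  obtain ⟨Ct, hT⟩ := h9
  refine ⟨8 * (Cs ^ 4).toNNReal * (Cm + Ct) * (4 * (1 + 2 / δ) ^ 2).toNNReal,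
    fun ε h0 h1 g B hg hB t ht => ?_⟩
  have ht0 : 0 < t := by linarith
  obtain ⟨A, hA, hAs, hAb⟩ := hS ε t h0 h1 ht
  obtain ⟨A1, A2, hA2, hd1, hd2, hbd⟩ := id hA
  have hAc : Continuous A := continuous_iff_continuousAt.2 fun y => (hd1 y).continuousAt
  have hA1 : ∀ y, ‖A y‖ ≤ 1 := fun y => (hbd y).1
  have hph := ph_cont ε
  set R : ℝ → ℂ := fun y => ((t ^ 2 / Cs : ℝ) : ℂ) * (KG ε t (-(t * y)) -
    ((Cs * t ^ (-(1 / 2) : ℝ) : ℝ) : ℂ) * (cexp (I * ((t * ph ε y : ℝ) : ℂ)) * A y)) with hRdef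
  have hRm : Measurable R := by
    refine Measurable.const_mul (Measurable.sub ?_ ?_) _
    · exact (KG_meas ε t).comp (by fun_prop)
    · refine Measurable.const_mul (Measurable.mul ?_ hAc.measurable) _
      exact (Complex.continuous_exp.comp (continuous_const.mul
        (Complex.continuous_ofReal.comp (continuous_const.mul hph)))).measurable
  have hRb : ∀ y, ‖R y‖ ≤ 1 / (1 + |y|) ^ 2 := by
    intro y
    rw [hRdef]
    show ‖((t ^ 2 / Cs : ℝ) : ℂ) * (KG ε t (-(t * y)) -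
      ((Cs * t ^ (-(1 / 2) : ℝ) : ℝ) : ℂ) * (cexp (I * ((t * ph ε y : ℝ) : ℂ)) * A y))‖ ≤ _
    rw [norm_mul, Complex.norm_real, Real.norm_eq_abs, abs_of_nonneg (by positivity)]
    calc t ^ 2 / Cs * ‖KG ε t (-(t * y)) - ((Cs * t ^ (-(1 / 2) : ℝ) : ℝ) : ℂ) *
            (cexp (I * ((t * ph ε y : ℝ) : ℂ)) * A y)‖
        ≤ t ^ 2 / Cs * (Cs / (t ^ 2 * (1 + |y|) ^ 2)) := by
          gcongr
          exact hAb y
      _ = 1 / (1 + |y|) ^ 2 := by
          field_simp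
  have hdec : ∀ y, KG ε t (-(t * y)) = ((Cs * t ^ (-(1 / 2) : ℝ) : ℝ) : ℂ) *
        (cexp (I * ((t * ph ε y : ℝ) : ℂ)) * A y) + ((Cs / t ^ 2 : ℝ) : ℂ) * R y := by
    intro y
    rw [hRdef]
    show _ = _ + ((Cs / t ^ 2 : ℝ) : ℂ) * (((t ^ 2 / Cs : ℝ) : ℂ) * (KG ε t (-(t * y)) -
      ((Cs * t ^ (-(1 / 2) : ℝ) : ℝ) : ℂ) * (cexp (I * ((t * ph ε y : ℝ) : ℂ)) * A y)))
    rw [← mul_assoc ((Cs / t ^ 2 : ℝ) : ℂ), ← Complex.ofReal_mul]
    have e : Cs / t ^ 2 * (t ^ 2 / Cs) = 1 := by field_simp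
    rw [e, Complex.ofReal_one, one_mul]
    ring
  have hM' := hM ε t h0 h1 ht A hA hAs g B hg hB
  have hT' := hT R hRm hRb g B hg hB
  have hEP := EP_dec h10 h0 hAc hA1 hRm hRb hdec hg hB
  set J : ℝ≥0∞ := ∫⁻ θ in Ioo (-π) π, ‖g θ‖ₑ ^ 2 with hJ
  set MM : ℝ × ℝ → ℂ := fun y => ∫ θ in Ioo (-π) π,
        cexp (I * ((t * ph ε (dt y θ) : ℝ) : ℂ)) * (A (dt y θ) * g θ) with hMM
  set NN : ℝ × ℝ → ℂ := fun y => ∫ θ in Ioo (-π) π, R (dt y θ) * g θ with hNN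
  have hMMm : Measurable MM := by
    have h : StronglyMeasurable (Function.uncurry fun (y : ℝ × ℝ) (θ : ℝ) =>
        cexp (I * ((t * ph ε (dt y θ) : ℝ) : ℂ)) * (A (dt y θ) * g θ)) := by
      refine Measurable.stronglyMeasurable (Measurable.mul ?_ (Measurable.mul ?_ ?_))
      · exact (Complex.continuous_exp.comp (continuous_const.mul
          (Complex.continuous_ofReal.comp (continuous_const.mul (hph.comp dt_cont))))).measurable
      · exact (hAc.comp dt_cont).measurable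
      · exact hg.comp measurable_snd
    exact (h.integral_prod_right (ν := volume.restrict (Ioo (-π) π))).measurable
  rw [lint_scale ht0]
  have e1 : (Cs * t ^ (-(1 / 2) : ℝ)) ^ 4 = Cs ^ 4 / t ^ 2 := by
    have e0 : (-(1 / 2) : ℝ) * ((4 : ℕ) : ℝ) = -((2 : ℕ) : ℝ) := by norm_num
    rw [mul_pow, ← Real.rpow_natCast (t ^ (-(1 / 2) : ℝ)), ← Real.rpow_mul ht0.le, e0,
      Real.rpow_neg ht0.le, Real.rpow_natCast, div_eq_mul_inv]
  have hL1 : 1 / t ^ 6 ≤ (1 + Real.log t) ^ 2 / t ^ 2 := by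
    have h0' : 0 ≤ Real.log t := Real.log_nonneg ht
    have h2 : (1 : ℝ) ≤ (1 + Real.log t) ^ 2 := by nlinarith
    have h3 : t ^ 2 ≤ t ^ 6 := pow_le_pow_right₀ ht (by norm_num)
    exact div_le_div₀ (by positivity) h2 (by positivity) h3
  have hlog := log_bound hδ hδ' ht
  set L : ℝ := (1 + Real.log t) ^ 2 / t ^ 2 with hL
  have hL0 : 0 ≤ L := by positivity
  calc ENNReal.ofReal (t ^ 2) * ∫⁻ y : ℝ × ℝ, ‖EP ε (bgp ε g) (-(t * y.1), -(t * y.2)) t‖ₑ ^ 4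
      ≤ ENNReal.ofReal (t ^ 2) * ∫⁻ y : ℝ × ℝ, 8 * (ENNReal.ofReal (Cs ^ 4 / t ^ 2) *
          ‖MM y‖ₑ ^ 4 + ENNReal.ofReal (Cs ^ 4 / t ^ 8) * ‖NN y‖ₑ ^ 4) := by
        gcongr with y
        rw [hEP y]
        refine (enorm_add_pow_four _ _).trans ?_
        rw [enorm_mul, enorm_mul, mul_pow, mul_pow, enorm_ofReal_pow (by positivity),
          enorm_ofReal_pow (by positivity), e1]
        have e2 : (Cs / t ^ 2) ^ 4 = Cs ^ 4 / t ^ 8 := by
          rw [div_pow, ← pow_mul]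
        rw [e2]
    _ = 8 * (ENNReal.ofReal (Cs ^ 4) * ∫⁻ y, ‖MM y‖ₑ ^ 4) +
          8 * (ENNReal.ofReal (Cs ^ 4 / t ^ 6) * ∫⁻ y, ‖NN y‖ₑ ^ 4) := by
        rw [lintegral_const_mul' _ _ (by norm_num), lintegral_add_left, lintegral_const_mul' _ _
          ENNReal.ofReal_ne_top, lintegral_const_mul' _ _ ENNReal.ofReal_ne_top]
        · have e3 : ENNReal.ofReal (t ^ 2) * ENNReal.ofReal (Cs ^ 4 / t ^ 2) =
              ENNReal.ofReal (Cs ^ 4) := by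
            rw [← ENNReal.ofReal_mul (by positivity)]
            congr 1
            field_simp
          have e4 : ENNReal.ofReal (t ^ 2) * ENNReal.ofReal (Cs ^ 4 / t ^ 8) =
              ENNReal.ofReal (Cs ^ 4 / t ^ 6) := by
            rw [← ENNReal.ofReal_mul (by positivity)]
            congr 1
            field_simp
          rw [← e3, ← e4]
          ring
        · exact (hMMm.enorm.pow_const 4).const_mul _
    _ ≤ 8 * (ENNReal.ofReal (Cs ^ 4) * (Cm * ENNReal.ofReal L * B ^ 2 * J)) +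
          8 * (ENNReal.ofReal (Cs ^ 4 * L) * (Ct * B ^ 2 * J)) := by
        gcongr
        rw [div_eq_mul_one_div]
        gcongr
    _ = 8 * ENNReal.ofReal (Cs ^ 4) * (Cm + Ct) * ENNReal.ofReal L * B ^ 2 * J := by
        rw [ENNReal.ofReal_mul (by positivity)]
        ring
    _ ≤ 8 * ENNReal.ofReal (Cs ^ 4) * (Cm + Ct) * ENNReal.ofReal (4 * (1 + 2 / δ) ^ 2 *
          (1 + t) ^ (-2 + δ)) * B ^ 2 * J := by
        gcongr
    _ = _ := by
        rw [ENNReal.ofReal_mul (by positivity)]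
        push_cast
        simp only [ENNReal.ofReal]
        ring

theorem conj_pro (ε : ℝ) (g : ℝ → ℂ) (x : ℝ × ℝ) :
    conj (bgp ε g x) = bgp ε (fun θ => conj (g θ)) x := by
  unfold bgp
  rw [map_mul, Complex.conj_ofReal]

/-- negative times -/
theorem EP_conj (ε : ℝ) (g : ℝ → ℂ) (X : ℝ × ℝ) (t : ℝ) :
    EP ε (bgp ε g) X t = conj (EP ε (bgp ε fun θ => conj (g θ)) (-X) (-t)) := by
  unfold EP
  rw [← integral_conj]
  refine integral_congr_ae (Filter.Eventually.of_forall fun x => ?_)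
  show cexp (-(I * ((x.1 * X.1 + x.2 * X.2 + ps ε (AR.sq x) * t : ℝ) : ℂ))) * bgp ε g x =
    conj (cexp (-(I * ((x.1 * (-X).1 + x.2 * (-X).2 + ps ε (AR.sq x) * -t : ℝ) : ℂ))) *
      bgp ε (fun θ => conj (g θ)) x)
  rw [map_mul, ← conj_pro, Complex.conj_conj, ← Complex.exp_conj, map_neg, map_mul,
    Complex.conj_ofReal, Complex.conj_I]
  congr 2
  have e : (x.1 * (-X).1 + x.2 * (-X).2 + ps ε (AR.sq x) * -t) =
      -(x.1 * X.1 + x.2 * X.2 + ps ε (AR.sq x) * t) := by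
    show x.1 * (-X.1) + x.2 * (-X.2) + ps ε (AR.sq x) * -t = _
    ring
  rw [e, Complex.ofReal_neg]
  ring

/-- the slab function -/
noncomputable def slab (g : ℝ → ℂ) (s θ : ℝ) : ℂ := if s ∈ Icc (0 : ℝ) 1 then g θ else 0

theorem slab_meas {g : ℝ → ℂ} (hg : Measurable g) : Measurable (Function.uncurry (slab g)) := by
  unfold slab Function.uncurry
  refine Measurable.ite ?_ (hg.comp measurable_snd) measurable_const
  exact measurable_fst measurableSet_Icc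

theorem slab_int (g : ℝ → ℂ) : ∫⁻ s : ℝ, ∫⁻ θ in Ioo (-π) π, ‖slab g s θ‖ₑ ^ 2 =
    ∫⁻ θ in Ioo (-π) π, ‖g θ‖ₑ ^ 2 := by
  have h : ∀ s : ℝ, ∫⁻ θ in Ioo (-π) π, ‖slab g s θ‖ₑ ^ 2 =
      (Icc (0 : ℝ) 1).indicator (fun _ => ∫⁻ θ in Ioo (-π) π, ‖g θ‖ₑ ^ 2) s := by
    intro s
    by_cases hs : s ∈ Icc (0 : ℝ) 1
    · rw [indicator_of_mem hs]
      refine lintegral_congr fun θ => ?_
      unfold slab
      rw [if_pos hs]
    · rw [indicator_of_notMem hs]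
      have h2 : ∀ θ, ‖slab g s θ‖ₑ ^ 2 = 0 := by
        intro θ
        unfold slab
        rw [if_neg hs, enorm_zero]
        norm_num
      simp only [h2, lintegral_zero]
  rw [lintegral_congr h, lintegral_indicator measurableSet_Icc, setLIntegral_const,
    Real.volume_Icc]
  norm_num

theorem slab_fap {ε : ℝ} (g : ℝ → ℂ) : fap ε (slab g) = bgp ε g := by
  funext x
  unfold fap bgp
  by_cases hp : pro ε x = 0
  · rw [hp, Complex.ofReal_zero, zero_mul, zero_mul]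
  · congr 1
    unfold slab
    rw [if_pos]
    have hs0 : 0 ≤ AR.sq x := by unfold AR.sq; positivity
    have h1 : ε ^ 2 * AR.sq x < 1 := by
      by_contra hc
      exact hp (if_neg hc)
    have h2 : MV.eta (gn ε (AR.sq x)) ≠ 0 := by
      intro hc
      apply hp
      unfold pro
      rw [if_pos h1, hc]
    have h3 : gn ε (AR.sq x) < 2 := by
      by_contra hc
      apply h2
      unfold MV.eta
      rw [Real.smoothTransition.zero_of_nonpos (show 2 - gn ε (AR.sq x) ≤ 0 by linarith), mul_zero]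
    set s := AR.sq x with hs
    have h4 : 0 < 1 - ε ^ 2 * s := by linarith
    have h5 : 1 - ε ^ 2 * s ≤ 1 := by nlinarith [sq_nonneg ε]
    unfold gn at h3
    rw [div_lt_iff₀ h4] at h3
    have h6 := Real.sqrt_nonneg (1 - ε ^ 2 * s)
    have h7 := Real.sq_sqrt h4.le
    have h8 : √(1 - ε ^ 2 * s) ≤ 1 := Real.sqrt_le_one.2 h5
    refine ⟨?_, ?_⟩
    · unfold ps
      positivity
    · unfold ps
      rw [div_le_one (by positivity)]
      nlinarith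

theorem lint_g {g : ℝ → ℂ} {B : ℝ≥0} (hB : ∀ θ, ‖g θ‖ₑ ≤ B) :
    ∫⁻ θ in Ioo (-π) π, ‖g θ‖ₑ ^ 2 ≤ ENNReal.ofReal (2 * π) * B ^ 2 := by
  calc ∫⁻ θ in Ioo (-π) π, ‖g θ‖ₑ ^ 2 ≤ ∫⁻ θ in Ioo (-π) π, (B : ℝ≥0∞) ^ 2 := by
        gcongr with θ
        exact hB θ
    _ = ENNReal.ofReal (2 * π) * B ^ 2 := by
        rw [setLIntegral_const, Real.volume_Ioo, mul_comm]
        congr 2
        ring

/-- **J12** -/
theorem allP_of (h7 : MainL4) (h8 : Stat) (h9 : TailL4) (h10 : Repr) (h11 : FaP) : AllP := by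
  intro A0 δ hδ hδ'
  have hA : 0 < max A0 1 := lt_max_of_lt_right one_pos
  obtain ⟨C1, hC1⟩ := pos_case h7 h8 h9 h10 hA hδ hδ'
  obtain ⟨C2, hC2⟩ := h11 (max A0 1)
  refine ⟨max C1 (4 * C2 ^ 2 * (2 * π).toNNReal), fun ε h0 h1 g B hg hB t => ?_⟩
  have h1' : ε ≤ max A0 1 := h1.trans (le_max_left _ _)
  rcases le_or_gt 1 |t| with ht | ht
  · have hle : ((C1 : ℝ≥0) : ℝ≥0∞) ≤ ((max C1 (4 * C2 ^ 2 * (2 * π).toNNReal) : ℝ≥0) : ℝ≥0∞) := by
      exact_mod_cast le_max_left _ _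
    rcases le_or_gt 0 t with h0t | h0t
    · rw [abs_of_nonneg h0t] at ht ⊢
      refine (hC1 ε h0 h1' g B hg hB t ht).trans ?_
      gcongr
    · rw [abs_of_neg h0t] at ht ⊢
      have hB' : ∀ θ, ‖conj (g θ)‖ₑ ≤ B := by
        intro θ
        have : ‖conj (g θ)‖ₑ = ‖g θ‖ₑ := by
          rw [← ofReal_norm, ← ofReal_norm, RCLike.norm_conj]
        rw [this]
        exact hB θ
      have hg' : Measurable fun θ => conj (g θ) := Complex.continuous_conj.measurable.comp hg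
      have h2 := hC1 ε h0 h1' (fun θ => conj (g θ)) B hg' hB' (-t) ht
      have h3 : ∫⁻ X : ℝ × ℝ, ‖EP ε (bgp ε g) X t‖ₑ ^ 4 =
          ∫⁻ X : ℝ × ℝ, ‖EP ε (bgp ε fun θ => conj (g θ)) X (-t)‖ₑ ^ 4 := by
        have h4 : ∀ X : ℝ × ℝ, ‖EP ε (bgp ε g) X t‖ₑ ^ 4 =
            (fun X => ‖EP ε (bgp ε fun θ => conj (g θ)) X (-t)‖ₑ ^ 4) (-X) := by
          intro X
          show _ = ‖EP ε (bgp ε fun θ => conj (g θ)) (-X) (-t)‖ₑ ^ 4
          rw [EP_conj ε g X t, ← ofReal_norm, ← ofReal_norm, RCLike.norm_conj]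
        rw [lintegral_congr h4]
        exact lintegral_neg_eq_self (μ := (volume : Measure (ℝ × ℝ)))
          (fun X => ‖EP ε (bgp ε fun θ => conj (g θ)) X (-t)‖ₑ ^ 4)
      have h5 : ∀ θ, ‖conj (g θ)‖ₑ = ‖g θ‖ₑ := by
        intro θ
        rw [← ofReal_norm, ← ofReal_norm, RCLike.norm_conj]
      simp only [h5] at h2
      rw [h3]
      refine h2.trans ?_
      gcongr
  · have hle : ((4 * C2 ^ 2 * (2 * π).toNNReal : ℝ≥0) : ℝ≥0∞) ≤
        ((max C1 (4 * C2 ^ 2 * (2 * π).toNNReal) : ℝ≥0) : ℝ≥0∞) := by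
      exact_mod_cast le_max_right _ _
    set J : ℝ≥0∞ := ∫⁻ θ in Ioo (-π) π, ‖g θ‖ₑ ^ 2 with hJ
    have hJB : J ≤ ENNReal.ofReal (2 * π) * B ^ 2 := lint_g hB
    have hJt : J ≠ ∞ := ne_top_of_le_ne_top (ENNReal.mul_ne_top ENNReal.ofReal_ne_top
      (ENNReal.pow_ne_top ENNReal.coe_ne_top)) hJB
    obtain ⟨-, -, h4, h5⟩ := hC2 ε h0 h1' (slab g) (slab_meas hg) (by rw [slab_int]; exact hJt)
    rw [slab_fap, slab_int] at h4 h5
    have h6 : (1 : ℝ≥0∞) ≤ 4 * ENNReal.ofReal ((1 + |t|) ^ (-2 + δ)) := by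
      have h7 : (4 : ℝ)⁻¹ ≤ (1 + |t|) ^ (-2 + δ) := by
        have h0t := abs_nonneg t
        calc (4 : ℝ)⁻¹ = (2 : ℝ) ^ (-2 : ℝ) := by
              rw [Real.rpow_neg (by norm_num)]
              have : (2 : ℝ) = ((2 : ℕ) : ℝ) := by norm_num
              rw [this, Real.rpow_natCast]
              norm_num
          _ ≤ (1 + |t|) ^ (-2 : ℝ) :=
              Real.rpow_le_rpow_of_nonpos (by linarith) (by linarith) (by norm_num)
          _ ≤ (1 + |t|) ^ (-2 + δ) :=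
              Real.rpow_le_rpow_of_exponent_le (by linarith) (by linarith)
      have h8 : (4 : ℝ≥0∞) * ENNReal.ofReal (4 : ℝ)⁻¹ = 1 := by
        rw [ENNReal.ofReal_inv_of_pos (by norm_num)]
        norm_num
        exact ENNReal.mul_inv_cancel (by norm_num) (by norm_num)
      rw [← h8]
      gcongr
    calc ∫⁻ X : ℝ × ℝ, ‖EP ε (bgp ε g) X t‖ₑ ^ 4
        ≤ ∫⁻ X : ℝ × ℝ, (C2 * J) * ‖EP ε (bgp ε g) X t‖ₑ ^ 2 := by
          refine lintegral_mono fun X => ?_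
          have e : ‖EP ε (bgp ε g) X t‖ₑ ^ 4 =
              ‖EP ε (bgp ε g) X t‖ₑ ^ 2 * ‖EP ε (bgp ε g) X t‖ₑ ^ 2 := by ring
          rw [e]
          gcongr
          exact h5 X t
      _ = (C2 * J) * ∫⁻ X : ℝ × ℝ, ‖EP ε (bgp ε g) X t‖ₑ ^ 2 :=
          lintegral_const_mul' _ _ (ENNReal.mul_ne_top ENNReal.coe_ne_top hJt)
      _ ≤ (C2 * J) * (C2 * J) := by
          gcongr
          exact h4 t
      _ ≤ (C2 * J) * (C2 * (ENNReal.ofReal (2 * π) * B ^ 2)) := by gcongr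
      _ ≤ (4 * ENNReal.ofReal ((1 + |t|) ^ (-2 + δ))) *
            ((C2 * J) * (C2 * (ENNReal.ofReal (2 * π) * B ^ 2))) := le_mul_of_one_le_left' h6
      _ = ((4 * C2 ^ 2 * (2 * π).toNNReal : ℝ≥0) : ℝ≥0∞) *
            ENNReal.ofReal ((1 + |t|) ^ (-2 + δ)) * B ^ 2 * J := by
          push_cast
          simp only [ENNReal.ofReal]
          ring
      _ ≤ _ := by gcongr

end Pool.Agent.TH541.MV
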